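import Pool.Agent.H97.ShearBound

set_option autoImplicit false

namespace Pool.Agent.Results.MP_eccde5_an.Sharp

open Metric
open scoped ComplexConjugate

/-- Euclidean `ℂ²`. -/
abbrev C2 := EuclideanSpace ℂ (Fin 2)

/-- The family `N_A` for `A = diag(lam, 1)`. -/
def NA (lam : ℝ) : Set (C2 → C2) :=
  {h | DifferentiableOn ℂ h (ball 0 1) ∧ h 0 = 0 ∧
    (∀ v : C2, fderiv ℂ h 0 v = !₂[lam * v 0, v 1]) ∧
    ∀ z ∈ ball (0 : C2) 1, z ≠ 0 → 0 < (h z 0 * conj (z 0) + h z 1 * conj (z 1)).re}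

/-- `q¹_{0,k}`: the coefficient of `z₂ ^ k` in the first component. -/
noncomputable def q1 (k : ℕ) (h : C2 → C2) : ℂ :=
  iteratedDeriv k (fun w : ℂ => h !₂[0, w] 0) 0 / k.factorial

/-- `q²_{k,0}`: the coefficient of `z₁ ^ k` in the second component. -/
noncomputable def q2 (k : ℕ) (h : C2 → C2) : ℂ :=
  iteratedDeriv k (fun w : ℂ => h !₂[w, 0] 1) 0 / k.factorial

/-- The number `s(α, β, k)`. -/
noncomputable def s (α β : ℝ) (k : ℕ) : ℝ :=
  2 * β / (α + k * β + √((α + k * β) ^ 2 + 4 * β * (α - β) * (k - 1)))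

/-- The sharp constant `B(α, β, k)`. -/
noncomputable def B (α β : ℝ) (k : ℕ) : ℝ :=
  (α * s α β k + β * (1 - s α β k)) / (√(s α β k) * √(1 - s α β k) ^ k)

open H97.Shear

lemma B_eq (α β : ℝ) (k : ℕ) : B α β k = bnd α β k := rfl

lemma inner_eq (z w : C2) : inner ℂ z w = w 0 * conj (z 0) + w 1 * conj (z 1) := by
  simp [PiLp.inner_apply, Fin.sum_univ_two]

lemma q1_eq (k : ℕ) (h : C2 → C2) : q1 k h = coef h 0 1 k := by
  have : ∀ w : ℂ, (!₂[0, w] : C2) = EuclideanSpace.single 1 w := by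
    intro w; ext i; fin_cases i <;> simp
  simp only [q1, coef, this]

lemma q2_eq (k : ℕ) (h : C2 → C2) : q2 k h = coef h 1 0 k := by
  have : ∀ w : ℂ, (!₂[w, 0] : C2) = EuclideanSpace.single 0 w := by
    intro w; ext i; fin_cases i <;> simp
  simp only [q2, coef, this]

/-- The diagonal operator. -/
noncomputable def A (lam : ℝ) : C2 →L[ℂ] C2 :=
  (EuclideanSpace.proj (𝕜 := ℂ) (0 : Fin 2)).smulRight ((lam : ℂ) • EuclideanSpace.single 0 1) +
    (EuclideanSpace.proj (𝕜 := ℂ) (1 : Fin 2)).smulRight (EuclideanSpace.single 1 1)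

lemma A_apply (lam : ℝ) (v : C2) : A lam v = !₂[lam * v 0, v 1] := by
  ext i; fin_cases i <;> simp [A, mul_comm]

/-- The extremal map. -/
noncomputable def ex (lam b : ℝ) (i j : Fin 2) (k : ℕ) (z : C2) : C2 :=
  A lam z + (b * z j ^ k) • EuclideanSpace.single i (1 : ℂ)

lemma ex_basic (lam b : ℝ) (i j : Fin 2) {k : ℕ} (hk : 2 ≤ k) :
    DifferentiableOn ℂ (ex lam b i j k) (ball 0 1) ∧ ex lam b i j k 0 = 0 ∧
      ∀ v : C2, fderiv ℂ (ex lam b i j k) 0 v = !₂[lam * v 0, v 1] := by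
  refine ⟨Differentiable.differentiableOn (by unfold ex; fun_prop), ?_, ?_⟩
  · have : k ≠ 0 := by omega
    simp [ex, this]
  · have h1 : HasFDerivAt (fun z : C2 => z j) (EuclideanSpace.proj (𝕜 := ℂ) j) 0 :=
      (EuclideanSpace.proj (𝕜 := ℂ) j).hasFDerivAt
    have h2 := (A lam).hasFDerivAt.add
      (((h1.pow k).const_mul (b : ℂ)).smul_const (EuclideanSpace.single i (1 : ℂ) : C2))
    intro v
    have h3 : k - 1 ≠ 0 := by omega
    have h4 : HasFDerivAt (ex lam b i j k) _ 0 := h2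
    rw [h4.fderiv, ← A_apply]
    simp [h3]

lemma re_ge (b : ℝ) (hb : 0 ≤ b) (u v : ℂ) (k : ℕ) :
    -(b * (‖u‖ * ‖v‖ ^ k)) ≤ (b * v ^ k * conj u).re := by
  have := (abs_le.mp (Complex.abs_re_le_norm (b * v ^ k * conj u))).1
  rw [norm_mul, norm_mul, norm_pow, Complex.norm_conj, Complex.norm_real,
    Real.norm_of_nonneg hb] at this
  linarith

lemma nrm (z : C2) (hz : z ∈ ball (0 : C2) 1) (h0 : z ≠ 0) :
    ‖z 0‖ ^ 2 + ‖z 1‖ ^ 2 < 1 ∧ 0 < ‖z 0‖ ^ 2 + ‖z 1‖ ^ 2 := by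
  rw [← Fin.sum_univ_two (fun i => ‖z i‖ ^ 2), ← EuclideanSpace.norm_sq_eq]
  rw [mem_ball_zero_iff] at hz
  exact ⟨(sq_lt_one_iff₀ (norm_nonneg _)).mpr hz, pow_pos (norm_pos_iff.mpr h0) 2⟩

lemma deriv_pow (b : ℝ) (k : ℕ) :
    iteratedDeriv k (fun w : ℂ => (b : ℂ) * w ^ k) 0 / k.factorial = b := by
  have : (k.factorial : ℂ) ≠ 0 := by exact_mod_cast k.factorial_ne_zero
  rw [iteratedDeriv_const_mul_field]
  simp [iteratedDeriv_pow, Nat.descFactorial_self, this]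

theorem result (lam : ℝ) (hlam : 0 < lam) (k : ℕ) (hk : 2 ≤ k) :
    IsGreatest ((fun h => ‖q1 k h‖) '' NA lam) (B lam 1 k) ∧
      IsGreatest ((fun h => ‖q2 k h‖) '' NA lam) (B 1 lam k) := by
  refine ⟨⟨⟨ex lam (bnd lam 1 k) 0 1 k, ?_, ?_⟩, ?_⟩, ⟨⟨ex lam (bnd 1 lam k) 1 0 k, ?_, ?_⟩, ?_⟩⟩
  · obtain ⟨h1, h2, h3⟩ := ex_basic lam (bnd lam 1 k) 0 1 hk
    refine ⟨h1, h2, h3, fun z hz h0 => ?_⟩
    have h4 := bnd_lt hlam one_pos hk (norm_nonneg (z 0)) (norm_nonneg (z 1)) (nrm z hz h0).1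
      (nrm z hz h0).2
    have h5 := re_ge _ (bnd_pos hlam one_pos hk).le (z 0) (z 1) k
    have e : ex lam (bnd lam 1 k) 0 1 k z 0 * conj (z 0) + ex lam (bnd lam 1 k) 0 1 k z 1 *
        conj (z 1) = ((lam * ‖z 0‖ ^ 2 + ‖z 1‖ ^ 2 : ℝ) : ℂ) +
          (bnd lam 1 k) * z 1 ^ k * conj (z 0) := by
      simp [ex, A_apply, ← Complex.mul_conj']
      ring
    rw [e, Complex.add_re, Complex.ofReal_re]
    linarith
  · have e : (fun w : ℂ => ex lam (bnd lam 1 k) 0 1 k !₂[0, w] 0) =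
        fun w : ℂ => (bnd lam 1 k : ℂ) * w ^ k := by
      funext w; simp [ex, A_apply]
    simp only [q1, e, deriv_pow, B_eq, Complex.norm_real]
    exact Real.norm_of_nonneg (bnd_pos hlam one_pos hk).le
  · rintro _ ⟨h, ⟨h1, h2, h3, h4⟩, rfl⟩
    simp only [q1_eq, B_eq]
    refine coef_le_bnd hlam one_pos hk h1 h2 (fun z hz h0 => ?_) (by norm_num) (by simp [h3])
      (by simp [h3])
    rw [inner_eq]; exact h4 z hz h0
  · obtain ⟨h1, h2, h3⟩ := ex_basic lam (bnd 1 lam k) 1 0 hk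
    refine ⟨h1, h2, h3, fun z hz h0 => ?_⟩
    have h4 := bnd_lt one_pos hlam hk (norm_nonneg (z 1)) (norm_nonneg (z 0))
      (by linarith [(nrm z hz h0).1]) (by linarith [(nrm z hz h0).2])
    have h5 := re_ge _ (bnd_pos one_pos hlam hk).le (z 1) (z 0) k
    have e : ex lam (bnd 1 lam k) 1 0 k z 0 * conj (z 0) + ex lam (bnd 1 lam k) 1 0 k z 1 *
        conj (z 1) = ((lam * ‖z 0‖ ^ 2 + ‖z 1‖ ^ 2 : ℝ) : ℂ) +
          (bnd 1 lam k) * z 0 ^ k * conj (z 1) := by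
      simp [ex, A_apply, ← Complex.mul_conj']
      ring
    rw [e, Complex.add_re, Complex.ofReal_re]
    linarith
  · have e : (fun w : ℂ => ex lam (bnd 1 lam k) 1 0 k !₂[w, 0] 1) =
        fun w : ℂ => (bnd 1 lam k : ℂ) * w ^ k := by
      funext w; simp [ex, A_apply]
    simp only [q2, e, deriv_pow, B_eq, Complex.norm_real]
    exact Real.norm_of_nonneg (bnd_pos one_pos hlam hk).le
  · rintro _ ⟨h, ⟨h1, h2, h3, h4⟩, rfl⟩
    simp only [q2_eq, B_eq]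
    refine coef_le_bnd one_pos hlam hk h1 h2 (fun z hz h0 => ?_) (by norm_num) (by simp [h3])
      (by simp [h3])
    rw [inner_eq]; exact h4 z hz h0

end Pool.Agent.Results.MP_eccde5_an.Sharp
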